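import Mathlib
import Pool.Agent.H411Z.HM.Defs
import Pool.Agent.H411Z.HM.Sphere

set_option autoImplicit false

open Pool.Agent.H411Z.HM

/-- Let `n = m + 1 ≥ 1` and `p > n`. Every bounded open subset of `ℝ^n` whose boundary is homeomorphic
to the sphere `S^(n-1)` has Hardy-Morrey constant at least that of the complement of a closed
half-line (the cone of half-opening angle `π`). -/
theorem Pool.Agent.Results.MP_f42450_an.SphereBoundary.result (m : ℕ) (p : ℝ)
    (hp : ((m + 1 : ℕ) : ℝ) < p) (Ω : Set (E (m + 1))) (hΩ : IsOpen Ω)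
    (hb : Bornology.IsBounded Ω)
    (hs : Nonempty (frontier Ω ≃ₜ Metric.sphere (0 : E (m + 1)) 1)) :
    lam p (cone m Real.pi) ≤ lam p Ω :=
  lam_cone_le (lt_of_le_of_lt (by exact_mod_cast Nat.le_add_left 1 m) hp) hΩ hb
    fun _ hx _ hr => sphere_meets hΩ hb hs hx hr
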